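import Pool.Agent.KS6_47.SJ.H578.JD.Oracle

/-!
The Turing jump, iterated along a computable well-founded relation, and generic sets.
-/

namespace Pool.Agent.KS6_47.SJ.H578.JD

open Encodable Oracle RE Defs
open Nat.Partrec (Code)

/-- Turing reducibility between sets. -/
def Red (B A : Set ℕ) : Prop := TuringReducible (chi B) (chi A)

theorem W_re : REPred fun p : ℕ × ℕ => W p.1 p.2 := by
  have h : Partrec fun p : ℕ × ℕ => (Denumerable.ofNat Code p.1).eval p.2 :=
    Code.eval_part.comp ((Computable.ofNat Code).comp Computable.fst) Computable.snd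
  exact h.dom_re

/-- The parameter theorem. -/
theorem smn {α β : Type*} [Primcodable α] [Primcodable β] {P : α → β → Prop}
    (hP : REPred fun x : α × β => P x.1 x.2) :
    ∃ g : α → ℕ, Computable g ∧ ∀ a b, W (g a) (encode b) ↔ P a b := by
  obtain ⟨c, hc⟩ := Nat.Partrec.Code.exists_code.1 hP
  refine ⟨fun a => encode (Code.curry c (encode a)), ?_, fun a b => ?_⟩
  · exact Computable.encode.comp ((Code.primrec₂_curry.to_comp).comp (Computable.const c)
      Computable.encode)
  · unfold W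
    rw [Denumerable.ofNat_encode, Code.eval_curry]
    have h0 : Nat.pair (encode a) (encode b) = encode (a, b) := rfl
    rw [h0, hc]
    simp only [encodek, Part.coe_some, Part.bind_some, Part.map_Dom]
    constructor
    · rintro ⟨h, -⟩; exact h
    · intro h; exact ⟨h, trivial⟩

/-- The recursion theorem. -/
theorem recursion {β : Type*} [Primcodable β] {P : ℕ → β → Prop}
    (hP : REPred fun x : ℕ × β => P x.1 x.2) : ∃ r : ℕ, ∀ b, W r (encode b) ↔ P r b := by
  obtain ⟨g, hg, h⟩ := smn hP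
  have hf : Computable fun c : Code => Denumerable.ofNat Code (g (encode c)) :=
    (Computable.ofNat Code).comp (hg.comp Computable.encode)
  obtain ⟨c, hc⟩ := Code.fixed_point hf
  refine ⟨encode c, fun b => ?_⟩
  rw [← h (encode c) b]
  unfold W
  rw [hc, Denumerable.ofNat_encode]

theorem REIn_iff_jump {α : Type*} [Primcodable α] {A : Set ℕ} {S : α → Prop} :
    REIn A S ↔ ∃ f : α → ℕ, Computable f ∧ ∀ a, S a ↔ f a ∈ jump A := by
  constructor
  · rintro ⟨R, hR, h⟩
    obtain ⟨g, hg, h1⟩ := smn hR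
    refine ⟨g, hg, fun a => ?_⟩
    rw [h a]
    constructor
    · rintro ⟨c, h2, h3⟩; exact ⟨c, h3, (h1 a c).2 h2⟩
    · rintro ⟨c, h3, h2⟩; exact ⟨c, (h1 a c).1 h2, h3⟩
  · rintro ⟨f, hf, h⟩
    refine ⟨fun a c => W (f a) (encode c), ?_, fun a => ?_⟩
    · exact RE.comp W_re (f := fun x : α × Info => (f x.1, encode x.2)) (by fun_prop)
    · rw [h a]
      constructor
      · rintro ⟨c, h3, h2⟩; exact ⟨c, h2, h3⟩
      · rintro ⟨c, h2, h3⟩; exact ⟨c, h3, h2⟩

theorem Red_iff {A B : Set ℕ} : Red B A ↔ REIn A (· ∈ B) ∧ REIn A (· ∉ B) :=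
  turingReducible_iff

theorem Red.refl (A : Set ℕ) : Red A A := TuringReducible.refl _

theorem Red.trans {A B C : Set ℕ} (h1 : Red A B) (h2 : Red B C) : Red A C :=
  TuringReducible.trans h1 h2

/-- Relative enumerability is monotone. -/
theorem reMono {α : Type*} [Primcodable α] {A B : Set ℕ} {S : α → Prop}
    (hS : REIn A S) (h : Red A B) : REIn B S := by
  obtain ⟨R, hR, h1⟩ := hS
  rw [Red_iff] at h
  have h2 : REIn B fun a => ∃ c : Info, R a c ∧ Ok A c := by
    refine REIn.ex (S := fun a c => R a c ∧ Ok A c) (REIn.and (REIn.of_re hR) ?_)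
    refine REIn.and ?_ ?_
    · exact REIn.all_mem (S := fun (_ : α × Info) x => x ∈ A) (l := fun x => x.2.1)
        (h.1.comp Computable.snd) (by fun_prop)
    · exact REIn.all_mem (S := fun (_ : α × Info) x => x ∉ A) (l := fun x => x.2.2)
        (h.2.comp Computable.snd) (by fun_prop)
  exact h2.of_eq fun a => (h1 a).symm

theorem mem_jump_re {A : Set ℕ} : REIn A (· ∈ jump A) :=
  REIn_iff_jump.2 ⟨fun n => n, Computable.id, fun _ => Iff.rfl⟩

theorem Red_jump (A : Set ℕ) : Red A (jump A) := by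
  rw [Red_iff]
  have h1 : REIn A (· ∈ A) := REIn.mem Computable.id
  have h2 : REIn A (· ∉ A) := REIn.not_mem Computable.id
  obtain ⟨f, hf, h3⟩ := REIn_iff_jump.1 h1
  obtain ⟨g, hg, h4⟩ := REIn_iff_jump.1 h2
  exact ⟨(REIn.mem hf).of_eq fun a => (h3 a).symm, (REIn.mem hg).of_eq fun a => (h4 a).symm⟩

theorem mem_join_even {A B : Set ℕ} {n : ℕ} : 2 * n ∈ join A B ↔ n ∈ A := by
  have h1 : (2 * n) % 2 = 0 := by omega
  have h2 : (2 * n) / 2 = n := by omega
  simp [join, h1, h2]

theorem mem_join_odd {A B : Set ℕ} {n : ℕ} : 2 * n + 1 ∈ join A B ↔ n ∈ B := by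
  have h1 : (2 * n + 1) % 2 = 1 := by omega
  have h2 : (2 * n + 1) / 2 = n := by omega
  simp [join, h1, h2]

theorem Red_join_left (A B : Set ℕ) : Red A (join A B) := by
  rw [Red_iff]
  exact ⟨(REIn.mem (f := fun n => 2 * n) (by fun_prop)).of_eq fun n => mem_join_even,
    (REIn.not_mem (f := fun n => 2 * n) (by fun_prop)).of_eq fun n => not_congr mem_join_even⟩

theorem Red_join_right (A B : Set ℕ) : Red B (join A B) := by
  rw [Red_iff]
  exact ⟨(REIn.mem (f := fun n => 2 * n + 1) (by fun_prop)).of_eq fun n => mem_join_odd,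
    (REIn.not_mem (f := fun n => 2 * n + 1) (by fun_prop)).of_eq fun n => not_congr mem_join_odd⟩

/-- Consistent information. -/
def Cons (p : Info) : Prop := ∀ x ∈ p.1, x ∉ p.2

/-- Concatenation of information. -/
def app (p q : Info) : Info := (p.1 ++ q.1, p.2 ++ q.2)

theorem okApp {A : Set ℕ} {p q : Info} (hp : Ok A p) (hq : Ok A q) : Ok A (app p q) :=
  Oracle.Ok.append hp hq

theorem okCons {A : Set ℕ} {p : Info} (hp : Ok A p) : Cons p :=
  fun x h1 h2 => hp.2 x h2 (hp.1 x h1)

/-- `X` is 1-generic relative to `Z`: it meets or strongly avoids every set of finite pieces of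
information which is computably enumerable in `Z`. -/
def OneGen (X Z : Set ℕ) : Prop :=
  ∀ V : Info → Prop, REIn Z V → (∃ p, Ok X p ∧ V p) ∨ ∃ p, Ok X p ∧ ∀ q, V q → ¬ Cons (app p q)

theorem OneGen.mono {X Z Z' : Set ℕ} (h : OneGen X Z) (hZ : Red Z' Z) : OneGen X Z' :=
  fun V hV => h V (reMono hV hZ)

theorem H_eq {R : ℕ → ℕ → Prop} (hR : WellFounded R) (X : Set ℕ) (b : ℕ) :
    H hR X b = join X {n | R n.unpair.1 b ∧ n.unpair.2 ∈ jump (H hR X n.unpair.1)} := by
  unfold H
  rw [hR.fix_eq]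
  congr 1
  ext n
  simp only [Set.mem_ofPred_eq, exists_prop]

/-- The `k`-th column of a set. -/
def col (X : Set ℕ) (k : ℕ) : Set ℕ := {n | Nat.pair k n ∈ X}

/-- The part of `X` in the columns listed in `σ`. -/
def restr (X : Set ℕ) (σ : List ℕ) : Set ℕ := {n | n ∈ X ∧ n.unpair.1 ∈ σ}

/-- The set whose `i`-th column is the column `π i` of `X`. -/
def perm (π : ℕ → ℕ) (X : Set ℕ) : Set ℕ := {n | Nat.pair (π n.unpair.1) n.unpair.2 ∈ X}

end Pool.Agent.KS6_47.SJ.H578.JD
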